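import Pool.Agent.helper47.SC.Spec

/-!
# Project SC, row LIN
-/

set_option autoImplicit false

open scoped Topology ContDiff
open Set Filter Metric MeasureTheory

namespace Pool.Agent.SC

theorem LIN_fst (h1 : NSQ_stmt) {t : C3} (ht : nsq t ≤ 1 / 64) : ‖t.1‖ < 1 / 4 := by
  obtain ⟨_, _, _, _, _, _, _, h, _⟩ := h1
  have h2 := h t
  have h3 := norm_nonneg t.1
  nlinarith

/-- **LIN**. -/
theorem LIN (h1 : NSQ_stmt) (h2 : EPS_stmt) (h3 : QTT_stmt) : LIN_stmt := by
  intro s D T m hD hm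
  have hz := h1.2.2.2.2.1
  constructor
  · intro i x
    have hi := hD.small _ (hD.mem i)
    refine ⟨⟨LIN_fst h1 hi, i + 1, ?_⟩, ?_, i + 1, ?_⟩
    · change ‖(GG s m i (x, (s i).1)) ^ (m i) * ((s i).1 - (s i).1)‖ < 1
      rw [sub_self, mul_zero, norm_zero]
      exact one_pos
    · change nsq (s i) < 1 / 4
      linarith
    · have h0 : ∏ j ∈ Finset.range (i + 1), (nsq (s i - s j)) ^ (eps m j / 2) = 0 := by
        refine Finset.prod_eq_zero (Finset.mem_range.2 (Nat.lt_succ_self i)) ?_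
        rw [sub_self, (hz 0).2 rfl]
        have := (h2 m hm.1).1 i
        exact Real.zero_rpow (by positivity)
      change Real.sqrt (1 + ‖x‖ ^ 2) * (∏ j ∈ Finset.range (i + 1),
        (nsq (s i - s j)) ^ (eps m j / 2)) * Real.exp (64 * nsq (s i)) < Real.exp 3
      rw [h0, mul_zero, zero_mul]
      exact Real.exp_pos _
  · intro t ht x hx
    have hi := hD.small _ ht
    have hX : (x, t.1) ∈ XX s m := ⟨LIN_fst h1 hi, 0, hx⟩
    refine ⟨hX, ?_, h3 s D T m hD hm t ht x hX⟩
    change nsq t < 1 / 4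
    linarith

end Pool.Agent.SC
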